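import Pool.Agent.Helper83_CNED.Stmt

/-!
Assembly: the main theorem from the statements of the modules.
-/

open MeasureTheory Set Topology Filter

open scoped ENNReal

noncomputable section

namespace Pool.Agent.Helper83_CNED

/-- The main theorem. -/
def MainStmt : Prop :=
  ∃ E : Set (Eu 3), IsCompact E ∧ volume E = 0 ∧ QCHRemovable E ∧ ¬ CNED E

theorem compact_of_even (hE : EvenStmt) : IsCompact EE := by
  apply Metric.isCompact_of_isClosed_isBounded isClosed_EE
  have hb : EE ⊆ (EuclideanSpace.equiv (Fin 3) ℝ).toHomeomorph ⁻¹'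
      (Set.pi Set.univ fun _ => Icc (-1 : ℝ) 2) := by
    intro x hx
    rw [Set.mem_preimage, Set.mem_univ_pi]
    intro j
    by_contra hcon
    apply hx
    apply hE.2
    refine ⟨j, ?_⟩
    have : ¬ (-1 ≤ x j ∧ x j ≤ 2) := hcon
    by_contra h2
    push Not at h2
    exact this h2
  have hc : IsCompact ((EuclideanSpace.equiv (Fin 3) ℝ).toHomeomorph ⁻¹'
      (Set.pi Set.univ fun _ => Icc (-1 : ℝ) 2)) := by
    rw [Homeomorph.isCompact_preimage]
    exact isCompact_univ_pi fun _ => isCompact_Icc
  exact hc.isBounded.subset hb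

theorem removable_of (hnull : NullStmt) (hglob : GlobStmt)
    (haclug : AclUgStmt) (harea : AreaStmt) (haclof : AclOfStmt) : QCHRemovable EE := by
  rintro f ⟨K, hK⟩
  have hU : (EE : Set (Eu 3))ᶜ = UU := compl_compl _
  rw [hU] at hK
  refine ⟨K, ?_⟩
  have hg : Measurable fun x => ‖fderiv ℝ f x‖ₑ := (measurable_fderiv ℝ f).enorm
  have hHyp : Hyp f (fun x => ‖fderiv ℝ f x‖ₑ) :=
    ⟨hg, fun i a b h => haclug K f UU isOpen_UU hK i a b h⟩
  have hint := harea K f UU isOpen_UU hK
  have hline := hglob f _ hHyp hint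
  have hacl : ACL univ (f : Eu 3 → Eu 3) := by
    apply haclof f (UU.indicator fun x => ‖fderiv ℝ f x‖ₑ)
      (hg.indicator isOpen_UU.measurableSet) ?_ hline
    intro r
    rw [setLIntegral_indicator isOpen_UU.measurableSet, inter_comm]
    exact hint r
  refine ⟨f.continuous.continuousOn, f.injective.injOn, hacl, ?_⟩
  have hn : volume EE = 0 := hnull
  have h0 : ∀ᵐ x : Eu 3, x ∉ EE := by
    rw [ae_iff]
    simpa using hn
  filter_upwards [h0, hK.2.2.2] with x hx h _
  exact h (by simpa [EE] using hx)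

theorem notCned_of (hlam : LamStmt) (hnc : NotCnedStmt) : ¬ CNED EE := by
  apply hnc
  obtain ⟨L, h1, h2, h3, h4⟩ := hlam
  refine ⟨L, h1, ?_, ?_, ?_⟩
  · intro x hx
    exact h2 x (by simpa [EE] using hx)
  · intro x hx
    apply h3
    intro j
    by_cases hj : j = 0
    · subst hj
      have := hx.1
      constructor <;> linarith
    · have := hx.2 j hj
      constructor <;> linarith [this.1, this.2]
  · intro x hx
    apply h4
    exact ⟨0, by have := hx.1; linarith⟩

theorem main_of (hE : EvenStmt) (hlam : LamStmt) (hnull : NullStmt) (hnc : NotCnedStmt)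
    (hglob : GlobStmt) (haclug : AclUgStmt) (harea : AreaStmt) (haclof : AclOfStmt) :
    MainStmt :=
  ⟨EE, compact_of_even hE, hnull, removable_of hnull hglob haclug harea haclof,
    notCned_of hlam hnc⟩

end Pool.Agent.Helper83_CNED
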