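import Pool.Agent.Helper83_CNED.Defs

/-!
Basic lemmas.
-/

open MeasureTheory Set Topology

open scoped ENNReal

noncomputable section

namespace Pool.Agent.Helper83_CNED

theorem line_apply {n : ℕ} (p : Eu n) (i j : Fin n) (t : ℝ) :
    line p i t j = if j = i then t else p j := by
  unfold line
  by_cases h : j = i
  · subst h; simp
  · simp [h]

theorem line_same {n : ℕ} (p : Eu n) (i : Fin n) (t : ℝ) : line p i t i = t := by
  rw [line_apply, if_pos rfl]

theorem line_ne {n : ℕ} (p : Eu n) {i j : Fin n} (h : j ≠ i) (t : ℝ) : line p i t j = p j := by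
  rw [line_apply, if_neg h]

theorem line_self {n : ℕ} (p : Eu n) (i : Fin n) : line p i (p i) = p := by
  ext j; rw [line_apply]; split_ifs with h
  · rw [h]
  · rfl

theorem line_line {n : ℕ} (p : Eu n) (i : Fin n) (s t : ℝ) : line (line p i s) i t = line p i t := by
  ext j; rw [line_apply, line_apply, line_apply]; split_ifs <;> rfl

/-- `line p i` depends only on the coordinates of `p` different from `i` -/
theorem line_congr {n : ℕ} {p q : Eu n} {i : Fin n} (h : ∀ j, j ≠ i → p j = q j) (t : ℝ) :
    line p i t = line q i t := by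
  ext j; rw [line_apply, line_apply]; split_ifs with hj
  · rfl
  · exact h j hj

theorem continuous_line {n : ℕ} (i : Fin n) :
    Continuous (fun q : Eu n × ℝ => line q.1 i q.2) := by
  unfold line; fun_prop

theorem continuous_line_left {n : ℕ} (i : Fin n) (t : ℝ) :
    Continuous (fun p : Eu n => line p i t) :=
  (continuous_line i).comp (Continuous.prodMk_left t)

theorem continuous_line_right {n : ℕ} (p : Eu n) (i : Fin n) :
    Continuous (fun t : ℝ => line p i t) :=
  (continuous_line i).comp (Continuous.prodMk_right p)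

theorem dist_line {n : ℕ} (p : Eu n) (i : Fin n) (s t : ℝ) :
    dist (line p i s) (line p i t) = |s - t| := by
  unfold line
  rw [dist_add_left, dist_eq_norm, ← sub_smul, norm_smul, PiLp.norm_single]
  simp

theorem KK_pos (m : ℕ) : 0 < KK m := by unfold KK; positivity

theorem KK_ge (m : ℕ) : 16 ≤ KK m := by
  unfold KK
  have : 1 ≤ 2 ^ m := Nat.one_le_two_pow
  omega

theorem MM_ge (m : ℕ) : 112 ≤ MM m := by
  have := KK_ge m
  unfold MM; omega

theorem MM_pos (m : ℕ) : 0 < MM m := by have := MM_ge m; omega

theorem RR_pos (m : ℕ) : 0 < RR m := by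
  induction m with
  | zero => exact Nat.one_pos
  | succ m ih => exact Nat.mul_pos ih (MM_pos m)

theorem RR_succ (m : ℕ) : RR (m + 1) = RR m * MM m := rfl

theorem RRr_pos (m : ℕ) : (0 : ℝ) < RR m := by exact_mod_cast RR_pos m

theorem MMr_pos (m : ℕ) : (0 : ℝ) < MM m := by exact_mod_cast MM_pos m

theorem RRr_succ (m : ℕ) : (RR (m + 1) : ℝ) = RR m * MM m := by
  rw [RR_succ]; push_cast; rfl

/-- the cube of generation `m` containing `x` is the parent of the one of generation `m + 1` -/
theorem idx_par (m : ℕ) (x : Eu 3) : par (MM m) (idx (m + 1) x) = idx m x := by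
  funext j
  unfold par idx
  have h := MMr_pos m
  have h1 : (RR m : ℝ) * x j = ((RR (m + 1) : ℝ) * x j) / (MM m : ℝ) := by
    rw [RRr_succ]; field_simp
  rw [h1, Int.floor_div_natCast]

theorem lab_succ (m : ℕ) (z : Fin 3 → ℤ) : lab (m + 1) z = step (MM m) (lab m) z := rfl

theorem isOpen_UU : IsOpen UU := isOpen_iUnion fun _ => isOpen_interior

theorem isClosed_EE : IsClosed EE := isOpen_UU.isClosed_compl

theorem isOpen_ob (a b : Fin 3 → ℝ) : IsOpen (ob a b) := by
  have : ob a b = ⋂ j, {x : Eu 3 | a j < x j ∧ x j < b j} := by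
    ext x; simp [ob]
  rw [this]
  apply isOpen_iInter_of_finite
  intro j
  have hj : Continuous (fun x : Eu 3 => x j) := by fun_prop
  exact (isOpen_lt continuous_const hj).inter (isOpen_lt hj continuous_const)

theorem measurableSet_ob (a b : Fin 3 → ℝ) : MeasurableSet (ob a b) := (isOpen_ob a b).measurableSet

end Pool.Agent.Helper83_CNED
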