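import Pool.Agent.Helper83_CNED.Stmt

/-!
CNED: CHILD (labels of children).
-/

open MeasureTheory Set Topology

noncomputable section

namespace Pool.Agent.Helper83_CNED.H83

theorem pat_cases (u v w : ℤ) : pat u v w = -1 ∨ pat u v w = 0 ∨ pat u v w = 1 := by
  unfold pat
  split_ifs <;> simp

theorem dep_of_mid {M : ℕ} {r : ℤ} (h : mid M r) : 21 ≤ dep M r := by
  unfold mid at h
  unfold dep
  omega

/-- the summand of `patAt` -/
def term (M : ℕ) (r : Fin 3 → ℤ) (i : Fin 3) : ℤ :=
  if dep M (r i) < 6 ∧ mid M (r (i + 1)) ∧ mid M (r (i + 2)) then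
    pat (dep M (r i)) (r (i + 1) % 7) (r (i + 2) % 7) else 0

theorem patAt_eq (M : ℕ) (r : Fin 3 → ℤ) : patAt M r = ∑ i, term M r i := rfl

theorem term_cases (M : ℕ) (r : Fin 3 → ℤ) (i : Fin 3) :
    term M r i = -1 ∨ term M r i = 0 ∨ term M r i = 1 := by
  unfold term
  split_ifs
  · exact pat_cases _ _ _
  · simp

theorem add_one_or_two {i j : Fin 3} (h : j ≠ i) : j = i + 1 ∨ j = i + 2 := by
  revert i j; decide

/-- if the summand `i` is nonzero, the slab condition holds -/
theorem slab_of_term {M : ℕ} {r : Fin 3 → ℤ} {i : Fin 3} (h : term M r i ≠ 0) :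
    dep M (r i) < 6 ∧ ∀ j, j ≠ i → mid M (r j) := by
  unfold term at h
  split_ifs at h with h1
  · refine ⟨h1.1, fun j hj => ?_⟩
    rcases add_one_or_two hj with rfl | rfl
    · exact h1.2.1
    · exact h1.2.2
  · exact absurd rfl h

/-- all summands vanish except possibly the one of the slab direction -/
theorem term_eq_zero {M : ℕ} {r : Fin 3 → ℤ} {i j : Fin 3} (hr : mid M (r j)) (_hij : j ≠ i) :
    term M r j = 0 := by
  by_contra h
  have h1 := (slab_of_term h).1
  have h2 := dep_of_mid hr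
  omega

theorem patAt_of_mid {M : ℕ} {r : Fin 3 → ℤ} {i : Fin 3} (hr : ∀ j, j ≠ i → mid M (r j)) :
    patAt M r = term M r i := by
  rw [patAt_eq, Finset.sum_eq_single i]
  · intro j _ hj
    exact term_eq_zero (hr j hj) hj
  · intro h; exact absurd (Finset.mem_univ i) h

theorem patAt_cases (M : ℕ) (r : Fin 3 → ℤ) :
    patAt M r = 0 ∨ ∃ i, (dep M (r i) < 6 ∧ ∀ j, j ≠ i → mid M (r j)) ∧ patAt M r = term M r i := by
  by_cases h : ∃ i, term M r i ≠ 0
  · obtain ⟨i, hi⟩ := h
    right
    have h1 := slab_of_term hi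
    exact ⟨i, h1, patAt_of_mid h1.2⟩
  · left
    push Not at h
    rw [patAt_eq]
    exact Finset.sum_eq_zero fun i _ => h i

theorem patAt_vals (M : ℕ) (r : Fin 3 → ℤ) :
    patAt M r = -1 ∨ patAt M r = 0 ∨ patAt M r = 1 := by
  rcases patAt_cases M r with h | ⟨i, _, h⟩
  · right; left; exact h
  · rw [h]; exact term_cases M r i

theorem nb_cases (M : ℕ) (lab : (Fin 3 → ℤ) → ℤ) (z : Fin 3 → ℤ) :
    nb M lab z = lab (par M z) ∨ (¬ Even (lab (par M z)) ∧ near M lab z (lab (par M z) - 1) ∧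
      nb M lab z = lab (par M z) - 1) ∨ (¬ Even (lab (par M z)) ∧
      near M lab z (lab (par M z) + 1) ∧ nb M lab z = lab (par M z) + 1) := by
  unfold nb
  split_ifs with h1 h2 h3
  · left; rfl
  · right; left; exact ⟨h1, h2, rfl⟩
  · right; right; exact ⟨h1, h3, rfl⟩
  · left; rfl

/-- far from the boundary of the parent, nearby cubes have the same parent -/
theorem par_eq_of_mid {M : ℕ} {z z' : Fin 3 → ℤ} (hM : 0 < M) (h : ∀ j, mid M (z j % M))
    (hd : ∀ j, |z' j - z j| ≤ 6) : par M z' = par M z := by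
  funext j
  unfold par
  have h1 := h j
  unfold mid at h1
  have h2 := abs_le.1 (hd j)
  have hM' : (0 : ℤ) < M := by exact_mod_cast hM
  have h3 := Int.emod_add_mul_ediv (z j) M
  have h4 : z' j = (z' j - z j + z j % M) + M * (z j / M) := by linarith
  rw [h4, Int.add_mul_ediv_left _ _ hM'.ne']
  rw [Int.ediv_eq_zero_of_lt (by omega) (by omega)]
  omega

theorem child : ChildStmt := by
  refine ⟨?_, ?_, ?_⟩
  · intro m z h
    rw [lab_succ]
    unfold step
    have : nb (MM m) (lab m) z = lab m (par (MM m) z) := by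
      unfold nb; rw [if_pos h]
    rw [this]; ring
  · intro m z
    rw [lab_succ]
    unfold step
    generalize hP : patAt (MM m) (fun j => z j % (MM m : ℤ)) = P
    have h1 : P = -1 ∨ P = 0 ∨ P = 1 := by rw [← hP]; exact patAt_vals _ _
    rcases nb_cases (MM m) (lab m) z with h | ⟨_, _, h⟩ | ⟨_, _, h⟩ <;> rw [h] <;>
      rcases h1 with rfl | rfl | rfl <;> rw [abs_le] <;> constructor <;> linarith
  · intro m z hz
    have hnb : nb (MM m) (lab m) z = lab m (par (MM m) z) := by
      rcases nb_cases (MM m) (lab m) z with h | ⟨_, ⟨z', h1, h2⟩, h⟩ | ⟨_, ⟨z', h1, h2⟩, h⟩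
      · exact h
      · rw [par_eq_of_mid (MM_pos m) hz h1] at h2
        omega
      · rw [par_eq_of_mid (MM_pos m) hz h1] at h2
        omega
    rw [lab_succ]
    unfold step
    rw [hnb]; ring

end Pool.Agent.Helper83_CNED.H83
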