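import Mathlib

/-!
CNED sets and removable sets for quasiconformal homeomorphisms (MP_f60983_an).
Definitions.
-/

open MeasureTheory Set Topology

open scoped ENNReal

noncomputable section

namespace Pool.Agent.Helper83_CNED

/-- Euclidean `n`-space -/
abbrev Eu (n : ℕ) : Type := EuclideanSpace ℝ (Fin n)

/-- the point with `i`-th coordinate `t` on the line through `p` parallel to the `i`-th axis -/
def line {n : ℕ} (p : Eu n) (i : Fin n) (t : ℝ) : Eu n :=
  p + (t - p i) • EuclideanSpace.single i (1 : ℝ)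

/-- `f` is ACL in `U`: for every closed interval `∏ [a_j, b_j]` contained in `U` and every `i`,
`f` is absolutely continuous on almost every line segment of it that is parallel to the `i`-th
axis. -/
def ACL {n : ℕ} (U : Set (Eu n)) (f : Eu n → Eu n) : Prop :=
  ∀ a b : Fin n → ℝ, {x : Eu n | ∀ j, x j ∈ Icc (a j) (b j)} ⊆ U → ∀ i : Fin n,
    ∀ᵐ p : Eu n, (∀ j, p j ∈ Icc (a j) (b j)) →
      AbsolutelyContinuousOnInterval (fun t => f (line p i t)) (a i) (b i)

/-- The analytic definition of a `K`-quasiconformal map in an open set `U`: continuous and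
injective, ACL, differentiable almost everywhere, and `|f'(x)|^n ≤ K |J(x, f)|` almost
everywhere. -/
def IsQCOn {n : ℕ} (K : ℝ) (U : Set (Eu n)) (f : Eu n → Eu n) : Prop :=
  ContinuousOn f U ∧ InjOn f U ∧ ACL U f ∧
    ∀ᵐ x : Eu n, x ∈ U → DifferentiableAt ℝ f x ∧
      ‖fderiv ℝ f x‖ ^ n ≤ K * |(fderiv ℝ f x).det|

/-- every homeomorphism of the space that is quasiconformal off `E` is quasiconformal -/
def QCHRemovable {n : ℕ} (E : Set (Eu n)) : Prop :=
  ∀ f : Eu n ≃ₜ Eu n, (∃ K : ℝ, IsQCOn K Eᶜ f) → ∃ K : ℝ, IsQCOn K univ f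

/-- the extension of a curve `[0, 1] → ℝ^n` to the real line (constant outside of `[0, 1]`) -/
def ext {n : ℕ} (γ : C(unitInterval, Eu n)) : ℝ → Eu n :=
  IccExtend zero_le_one γ

/-- the length of a curve -/
def len {n : ℕ} (γ : C(unitInterval, Eu n)) : ℝ≥0∞ := eVariationOn (ext γ) (Icc 0 1)

/-- the integral of `ρ` along a rectifiable curve with respect to arc length -/
def lineIntegral {n : ℕ} (ρ : Eu n → ℝ≥0∞) (γ : C(unitInterval, Eu n)) : ℝ≥0∞ :=
  ∫⁻ s in Icc 0 (len γ).toReal, ρ (naturalParameterization (ext γ) (Icc 0 1) 0 s)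

/-- `ρ` is admissible for the curve family `Γ` -/
def Admissible {n : ℕ} (Γ : Set (C(unitInterval, Eu n))) (ρ : Eu n → ℝ≥0∞) : Prop :=
  Measurable ρ ∧ ∀ γ ∈ Γ, len γ ≠ ⊤ → 1 ≤ lineIntegral ρ γ

/-- the conformal `n`-modulus -/
def modulus {n : ℕ} (Γ : Set (C(unitInterval, Eu n))) : ℝ≥0∞ :=
  ⨅ (ρ : Eu n → ℝ≥0∞) (_ : Admissible Γ ρ), ∫⁻ x, ρ x ^ n

/-- the curves joining `F₁` and `F₂` -/
def joining {n : ℕ} (F₁ F₂ : Set (Eu n)) : Set (C(unitInterval, Eu n)) :=
  {γ | γ 0 ∈ F₁ ∧ γ 1 ∈ F₂}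

/-- the curves whose trace meets `E` in a countable set -/
def sigmaFam {n : ℕ} (E : Set (Eu n)) : Set (C(unitInterval, Eu n)) :=
  {γ | (range γ ∩ E).Countable}

/-- countably negligible for extremal distances -/
def CNED {n : ℕ} (E : Set (Eu n)) : Prop :=
  ∀ F₁ F₂ : Set (Eu n), IsCompact F₁ → IsConnected F₁ → IsCompact F₂ → IsConnected F₂ →
    Disjoint F₁ F₂ → modulus (joining F₁ F₂) = modulus (joining F₁ F₂ ∩ sigmaFam E)

/-! ### The set: labels of cubes -/

/-- number of cells on an edge -/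
def KK (m : ℕ) : ℕ := 16 * 2 ^ m

/-- the refinement ratio of step `m` (at least `112`) -/
def MM (m : ℕ) : ℕ := 7 * KK m

/-- the cubes of generation `m` have side `1 / RR m` -/
def RR : ℕ → ℕ
  | 0 => 1
  | m + 1 => RR m * MM m

/-- the chain mail: `-1` is the staple of the old gap, `1` the staple of the new gap, `0` the
wall. Here `u` is the depth below the face and `v w` are the coordinates in the cell. -/
def pat (u v w : ℤ) : ℤ :=
  if w = 3 ∧ ((v = 1 ∨ v = 5) ∧ u ≤ 4 ∨ u = 4 ∧ 1 ≤ v ∧ v ≤ 5) then -1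
  else if v = 3 ∧ ((w = 1 ∨ w = 5) ∧ 2 ≤ u ∨ u = 2 ∧ 1 ≤ w ∧ w ≤ 5) then 1
  else 0

/-- the depth of the local coordinate `r ∈ [0, M)` below the nearest end -/
def dep (M : ℕ) (r : ℤ) : ℤ := min r (M - 1 - r)

/-- the local coordinate `r` is in the middle part -/
def mid (M : ℕ) (r : ℤ) : Prop := 21 ≤ r ∧ r < M - 21

instance (M : ℕ) (r : ℤ) : Decidable (mid M r) := by unfold mid; infer_instance

/-- the value of the pattern at a cube with local coordinates `r` -/
def patAt (M : ℕ) (r : Fin 3 → ℤ) : ℤ :=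
  ∑ i : Fin 3, if dep M (r i) < 6 ∧ mid M (r (i + 1)) ∧ mid M (r (i + 2)) then
    pat (dep M (r i)) (r (i + 1) % 7) (r (i + 2) % 7) else 0

/-- the parent cube -/
def par (M : ℕ) (z : Fin 3 → ℤ) : Fin 3 → ℤ := fun j => z j / M

/-- some cube at distance at most `6` of `z` has a parent with label `e` -/
def near (M : ℕ) (lab : (Fin 3 → ℤ) → ℤ) (z : Fin 3 → ℤ) (e : ℤ) : Prop :=
  ∃ z' : Fin 3 → ℤ, (∀ j, |z' j - z j| ≤ 6) ∧ lab (par M z') = e

open Classical in
/-- the label of the gap near `z` if `z` lies in a wall close to a gap, otherwise the label of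
the parent of `z` -/
def nb (M : ℕ) (lab : (Fin 3 → ℤ) → ℤ) (z : Fin 3 → ℤ) : ℤ :=
  if Even (lab (par M z)) then lab (par M z)
  else if near M lab z (lab (par M z) - 1) then lab (par M z) - 1
  else if near M lab z (lab (par M z) + 1) then lab (par M z) + 1
  else lab (par M z)

/-- the labels of the next generation -/
def step (M : ℕ) (lab : (Fin 3 → ℤ) → ℤ) (z : Fin 3 → ℤ) : ℤ :=
  lab (par M z) + nb M lab z + patAt M (fun j => z j % M) * (lab (par M z) - nb M lab z)

/-- the labels: even labels are gaps, odd labels are walls -/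
def lab : ℕ → (Fin 3 → ℤ) → ℤ
  | 0 => fun z => min 2 (max |z 0| (max |z 1| |z 2|))
  | m + 1 => step (MM m) (lab m)

/-- the cube of generation `m` containing `x` -/
def idx (m : ℕ) (x : Eu 3) : Fin 3 → ℤ := fun j => ⌊(RR m : ℝ) * x j⌋

/-- the complement of the set -/
def UU : Set (Eu 3) := ⋃ m : ℕ, interior {x : Eu 3 | Even (lab m (idx m x))}

/-- the set -/
def EE : Set (Eu 3) := UUᶜ

/-! ### Auxiliary notions -/

/-- open boxes -/
def ob (a b : Fin 3 → ℝ) : Set (Eu 3) := {x | ∀ j, a j < x j ∧ x j < b j}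

/-- `g` is an upper gradient of `f` on almost all segments of the box parallel to the axis `i` -/
def UG (f : Eu 3 → Eu 3) (g : Eu 3 → ℝ≥0∞) (i : Fin 3) (a b : Fin 3 → ℝ) : Prop :=
  ∀ᵐ p : Eu 3, (∀ j, j ≠ i → a j < p j ∧ p j < b j) → ∀ s t : ℝ, a i < s → s ≤ t → t < b i →
    edist (f (line p i s)) (f (line p i t)) ≤ ∫⁻ r in Ioo s t, g (line p i r)

/-- the unit vector -/
def ue (i : Fin 3) : Fin 3 → ℤ := Pi.single i 1

/-- the eight boxes of the gadget: big box in the old gap, big box in the new gap, the two legs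
and the bar of the old staple, the two legs and the bar of the new staple -/
def sbL : Fin 8 → Fin 3 → ℤ :=
  ![![-7, 0, 0], ![6, 0, 0], ![-1, 1, 3], ![4, 1, 3], ![-1, 5, 3], ![2, 3, 1], ![2, 3, 1],
    ![2, 3, 5]]

/-- upper corners of the eight boxes -/
def sbU : Fin 8 → Fin 3 → ℤ :=
  ![![0, 7, 7], ![13, 7, 7], ![5, 2, 4], ![5, 6, 4], ![5, 6, 4], ![7, 4, 2], ![3, 4, 6],
    ![7, 4, 6]]

/-- the eight boxes as open sets -/
def sb (k : Fin 8) : Set (Eu 3) := ob (fun j => sbL k j) (fun j => sbU k j)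

/-- the real number `t` is in the middle part of the interval of generation `m` containing it and
is not a coordinate of the grid of generation `m + 1` -/
def GoodC (m : ℕ) (t : ℝ) : Prop :=
  mid (MM m) (⌊(RR (m + 1) : ℝ) * t⌋ % MM m) ∧ ∀ k : ℤ, (RR (m + 1) : ℝ) * t ≠ k

/-- the coordinate of a face of the cube with index `k` (upper face if `s`, else lower face) -/
def tf (m : ℕ) (s : Bool) (k : ℤ) : ℝ := if s then (k + 1 : ℝ) / RR m else (k : ℝ) / RR m

/-- the coordinate of the other side of the layer below the face -/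
def tg (m : ℕ) (s : Bool) (k : ℤ) : ℝ :=
  if s then (k + 1 : ℝ) / RR m - 6 / RR (m + 1) else (k : ℝ) / RR m + 6 / RR (m + 1)

/-- the sign -/
def sg (s : Bool) : ℤ := if s then 1 else -1

open Classical in
/-- the jump of `f` across the layer below a face (upper or lower) of the wall cube with index
`k` on the line through `p` parallel to the axis `i` -/
def jump (f : Eu 3 → Eu 3) (m : ℕ) (i : Fin 3) (s : Bool) (k : ℤ) (p : Eu 3) : ℝ≥0∞ :=
  if Odd (lab m (Function.update (idx m p) i k)) ∧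
      Even (lab m (Function.update (idx m p) i k + sg s • ue i)) ∧
      (∀ j, j ≠ i → mid (MM m) (⌊(RR (m + 1) : ℝ) * p j⌋ % MM m)) then
    edist (f (line p i (tf m s k))) (f (line p i (tg m s k))) else 0

/-- the sum of the jumps on the line -/
def err (f : Eu 3 → Eu 3) (m : ℕ) (i : Fin 3) (p : Eu 3) : ℝ≥0∞ :=
  ∑' k : ℤ, (jump f m i true k p + jump f m i false k p)

/-- the points of the big box for which the coordinate `i` is close to the grid of generation
`m` -/
def NN (m : ℕ) (i : Fin 3) : Set (Eu 3) :=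
  {x | (∀ j, -3 ≤ x j ∧ x j ≤ 4) ∧ ∃ k : ℤ, |x i - k / RR m| ≤ 13 / RR (m + 1)}

/-- the frame attached to a face: the homeomorphism
`x ↦ (c_i + σ ε x_0, c_{i+1} + ε x_1, c_{i+2} + ε x_2)` (coordinates `i, i+1, i+2`) -/
def frame (ε σ : ℝ) (i : Fin 3) (c : Fin 3 → ℝ) (x : Eu 3) : Eu 3 :=
  WithLp.toLp 2 (fun j => c j + (if j = i then σ else 1) * ε * x (j - i))

end Pool.Agent.Helper83_CNED
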