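import Pool.Agent.Helper83_CNED.Child

/-!
CNED: LIP (adjacent cubes have labels that differ by at most one).
-/

open MeasureTheory Set Topology

noncomputable section

namespace Pool.Agent.Helper83_CNED.H83

/-- the Lipschitz property -/
def Lip (L : (Fin 3 → ℤ) → ℤ) : Prop :=
  ∀ z z' : Fin 3 → ℤ, (∀ j, |z j - z' j| ≤ 1) → |L z - L z'| ≤ 1

theorem ediv_adj {M : ℕ} (hM : 0 < M) {a b : ℤ} (h : |a - b| < M) : |a / M - b / M| ≤ 1 := by
  have hM' : (0 : ℤ) < M := by exact_mod_cast hM
  have h1 := Int.emod_add_mul_ediv a M
  have h2 := Int.emod_add_mul_ediv b M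
  have h3 := Int.emod_nonneg a hM'.ne'
  have h4 := Int.emod_lt_of_pos a hM'
  have h5 := Int.emod_nonneg b hM'.ne'
  have h6 := Int.emod_lt_of_pos b hM'
  have h7 := abs_lt.1 h
  rw [abs_le]
  constructor
  · by_contra hcon
    push Not at hcon
    have h8 : a / (M : ℤ) ≤ b / M - 2 := by omega
    have h9 : (M : ℤ) * (a / M) ≤ M * (b / M - 2) := mul_le_mul_of_nonneg_left h8 hM'.le
    have h10 : (M : ℤ) * (b / M - 2) = M * (b / M) - 2 * M := by ring
    omega
  · by_contra hcon
    push Not at hcon
    have h8 : b / (M : ℤ) ≤ a / M - 2 := by omega
    have h9 : (M : ℤ) * (b / M) ≤ M * (a / M - 2) := mul_le_mul_of_nonneg_left h8 hM'.le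
    have h10 : (M : ℤ) * (a / M - 2) = M * (a / M) - 2 * M := by ring
    omega

/-- same parent coordinate -/
theorem ediv_same {M : ℕ} {a b : ℤ} (h : 0 ≤ a % M + (b - a)) (h' : a % M + (b - a) < M) :
    b / M = a / M := by
  have hM' : (0 : ℤ) < M := by omega
  have h1 := Int.emod_add_mul_ediv a M
  have h4 : b = (a % M + (b - a)) + M * (a / M) := by linarith
  rw [h4, Int.add_mul_ediv_left _ _ hM'.ne', Int.ediv_eq_zero_of_lt h h', zero_add]

section

variable {M : ℕ} {L : (Fin 3 → ℤ) → ℤ}

theorem near_self (z : Fin 3 → ℤ) : near M L z (L (par M z)) :=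
  ⟨z, fun j => by simp, rfl⟩

theorem near_nb (z : Fin 3 → ℤ) : near M L z (nb M L z) := by
  rcases nb_cases M L z with h | ⟨_, h1, h⟩ | ⟨_, h1, h⟩
  · rw [h]; exact near_self z
  · rw [h]; exact h1
  · rw [h]; exact h1

theorem near_near (hM : 50 ≤ M) (hL : Lip L) {z z' : Fin 3 → ℤ} (hz : ∀ j, |z j - z' j| ≤ 1)
    {e e' : ℤ} (h : near M L z e) (h' : near M L z' e') : |e - e'| ≤ 1 := by
  obtain ⟨x, hx, rfl⟩ := h
  obtain ⟨x', hx', rfl⟩ := h'
  apply hL
  intro j
  apply ediv_adj (by omega)
  have a1 := abs_le.1 (hz j)
  have a2 := abs_le.1 (hx j)
  have a3 := abs_le.1 (hx' j)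
  rw [abs_lt]
  constructor <;> omega

/-- if a cube with a label different from `o` is near then it is the one given by `nb` -/
theorem nb_eq_of_near (hM : 50 ≤ M) (hL : Lip L) {z : Fin 3 → ℤ} (ho : ¬ Even (L (par M z)))
    {e : ℤ} (h : near M L z e) (he : e ≠ L (par M z)) : nb M L z = e := by
  have h1 : |e - L (par M z)| ≤ 1 := near_near hM hL (fun j => by simp) h (near_self z)
  have h2 : |e - nb M L z| ≤ 1 := near_near hM hL (fun j => by simp) h (near_nb z)
  rw [abs_le] at h1 h2
  have h3 : nb M L z ≠ L (par M z) := by
    unfold nb
    rw [if_neg ho]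
    split_ifs with h4 h5
    · omega
    · omega
    · exfalso
      have : e = L (par M z) - 1 ∨ e = L (par M z) + 1 := by omega
      rcases this with h' | h'
      · rw [h'] at h; exact h4 h
      · rw [h'] at h; exact h5 h
  rcases nb_cases M L z with h4 | ⟨_, _, h4⟩ | ⟨_, _, h4⟩
  · exact absurd h4 h3
  · omega
  · omega

theorem pat_one {u v w : ℤ} (h : pat u v w = 1) :
    v = 3 ∧ 2 ≤ u ∧ 1 ≤ w ∧ w ≤ 5 ∧ ((w = 2 ∨ w = 3 ∨ w = 4) → u = 2) := by
  unfold pat at h
  split_ifs at h with h1 h2 <;> omega

theorem pat_neg {u v w : ℤ} (h : pat u v w = -1) :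
    w = 3 ∧ u ≤ 4 ∧ 1 ≤ v ∧ v ≤ 5 ∧ ((v = 2 ∨ v = 3 ∨ v = 4) → u = 4) := by
  unfold pat at h
  split_ifs at h with h1 h2
  omega

theorem term_one {r : Fin 3 → ℤ} {i : Fin 3} (h : term M r i = 1) :
    pat (dep M (r i)) (r (i + 1) % 7) (r (i + 2) % 7) = 1 := by
  unfold term at h
  split_ifs at h with h1
  · exact h
  · exact absurd h (by norm_num)

theorem term_neg {r : Fin 3 → ℤ} {i : Fin 3} (h : term M r i = -1) :
    pat (dep M (r i)) (r (i + 1) % 7) (r (i + 2) % 7) = -1 := by
  unfold term at h
  split_ifs at h with h1
  · exact h

/-- old and new staples do not touch (inside of one cube) -/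
theorem no_touch {r r' : Fin 3 → ℤ} (hr : ∀ j, |r j - r' j| ≤ 1) (h : patAt M r = -1)
    (h' : patAt M r' = 1) : False := by
  rcases patAt_cases M r with h0 | ⟨i, hi, hpi⟩
  · rw [h0] at h; norm_num at h
  rcases patAt_cases M r' with h0 | ⟨i', hi', hpi'⟩
  · rw [h0] at h'; norm_num at h'
  have hii : i = i' := by
    by_contra hne
    have h1 := dep_of_mid (hi'.2 i hne)
    have h2 := hi.1
    have h3 := abs_le.1 (hr i)
    unfold dep at h1 h2
    omega
  subst hii
  rw [hpi] at h
  rw [hpi'] at h'
  have a := pat_neg (term_neg h)
  have b := pat_one (term_one h')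
  have c0 := abs_le.1 (hr i)
  have c1 := abs_le.1 (hr (i + 1))
  have c2 := abs_le.1 (hr (i + 2))
  unfold dep at a b
  omega

/-- the step preserves the Lipschitz property -/
theorem step_lip (hM : 50 ≤ M) (hL : Lip L) : Lip (step M L) := by
  have hM0 : (0 : ℤ) < M := by omega
  have key : ∀ z : Fin 3 → ℤ, ∀ j, 0 ≤ z j % (M : ℤ) ∧ z j % (M : ℤ) < M := fun z j =>
    ⟨Int.emod_nonneg _ hM0.ne', Int.emod_lt_of_pos _ hM0⟩
  -- if `patAt` is nonzero, a neighbour with another parent lies across the face of the slab,
  -- and the depth is zero
  have hface : ∀ z z' : Fin 3 → ℤ, (∀ j, |z j - z' j| ≤ 1) → ∀ i,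
      (dep M (z i % M) < 6 ∧ ∀ j, j ≠ i → mid M (z j % M)) → par M z ≠ par M z' →
      dep M (z i % M) = 0 := by
    intro z z' hz i hi hne
    by_contra hcon
    apply hne
    funext j
    unfold par
    have h1 := key z j
    have h2 := abs_le.1 (hz j)
    symm
    by_cases hj : j = i
    · subst hj
      have h3 := hi.1
      unfold dep at hcon h3
      apply ediv_same <;> omega
    · have h3 := hi.2 j hj
      unfold mid at h3
      apply ediv_same <;> omega
  have hmod : ∀ z z' : Fin 3 → ℤ, (∀ j, |z j - z' j| ≤ 1) → par M z = par M z' →
      ∀ j, |z j % (M : ℤ) - z' j % M| ≤ 1 := by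
    intro z z' hz he j
    have h1 : z j / (M : ℤ) = z' j / M := congrFun he j
    have h2 := Int.emod_add_mul_ediv (z j) M
    have h3 := Int.emod_add_mul_ediv (z' j) M
    rw [h1] at h2
    have h4 := hz j
    have h5 : z j % (M : ℤ) - z' j % M = z j - z' j := by linarith
    rw [h5]; exact h4
  -- old staples have the gap within distance six also for the neighbours
  have hB : ∀ z z' : Fin 3 → ℤ, (∀ j, |z j - z' j| ≤ 1) → ¬ Even (L (par M z)) →
      L (par M z) = L (par M z') → nb M L z ≠ L (par M z) →
      patAt M (fun j => z j % M) = -1 → near M L z' (nb M L z) := by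
    intro z z' hz ho hoo hne hp
    rcases patAt_cases M (fun j => z j % M) with h0 | ⟨i, hi, hpi⟩
    · rw [h0] at hp; norm_num at hp
    rw [hpi] at hp
    have hu := (pat_neg (term_neg hp)).2.1
    obtain ⟨x, hx, hxe⟩ := near_nb (M := M) (L := L) z
    -- the parent of `x` differs from the one of `z` only in direction `i`
    have hpar : ∀ j, j ≠ i → x j / (M : ℤ) = z j / M := by
      intro j hj
      have h1 := key z j
      have h2 := abs_le.1 (hx j)
      have h3 := hi.2 j hj
      unfold mid at h3
      apply ediv_same <;> omega
    have hpi' : x i / (M : ℤ) ≠ z i / M := by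
      intro h
      apply hne
      rw [← hxe]
      congr 1
      funext j
      unfold par
      by_cases hj : j = i
      · rw [hj]; exact h
      · exact hpar j hj
    have hpar' : par M z' = par M z := by
      by_contra hcon
      -- then the depth is zero and the parent of `z'` is the parent of `x`
      have hd := hface z z' hz i hi (fun h => hcon h.symm)
      have h1 : par M z' = par M x := by
        funext j
        by_cases hj : j = i
        · subst hj
          have hz'ne : z' j / (M : ℤ) ≠ z j / M := by
            intro h
            apply hcon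
            funext l
            unfold par
            by_cases hl : l = j
            · rw [hl]; exact h
            · have h1 := key z l
              have h2 := abs_le.1 (hz l)
              have h3 := hi.2 l hl
              unfold mid at h3
              apply ediv_same <;> omega
          unfold par
          -- both are across the same face
          have k1 := key z j
          have k2 := abs_le.1 (hz j)
          have k3 := abs_le.1 (hx j)
          unfold dep at hd
          have e1 := Int.emod_add_mul_ediv (z j) M
          have e2 := Int.emod_add_mul_ediv (z' j) M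
          have e3 := Int.emod_add_mul_ediv (x j) M
          have k4 := key z' j
          have k5 := key x j
          have k6 := abs_le.1 (ediv_adj (M := M) (by omega) (a := z' j) (b := z j)
            (by rw [abs_lt]; constructor <;> omega))
          have k7 := abs_le.1 (ediv_adj (M := M) (by omega) (a := x j) (b := z j)
            (by rw [abs_lt]; constructor <;> omega))
          have c1 : z' j / (M : ℤ) = z j / M - 1 ∨ z' j / (M : ℤ) = z j / M + 1 := by omega
          have c2 : x j / (M : ℤ) = z j / M - 1 ∨ x j / (M : ℤ) = z j / M + 1 := by omega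
          have c1' : (M : ℤ) * (z' j / M) = M * (z j / M) - M ∧ z' j / (M : ℤ) = z j / M - 1 ∨
              (M : ℤ) * (z' j / M) = M * (z j / M) + M ∧ z' j / (M : ℤ) = z j / M + 1 := by
            rcases c1 with c | c
            · left; exact ⟨by rw [c]; ring, c⟩
            · right; exact ⟨by rw [c]; ring, c⟩
          have c2' : (M : ℤ) * (x j / M) = M * (z j / M) - M ∧ x j / (M : ℤ) = z j / M - 1 ∨
              (M : ℤ) * (x j / M) = M * (z j / M) + M ∧ x j / (M : ℤ) = z j / M + 1 := by
            rcases c2 with c | c
            · left; exact ⟨by rw [c]; ring, c⟩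
            · right; exact ⟨by rw [c]; ring, c⟩
          have hd' : z j % (M : ℤ) = 0 ∨ z j % (M : ℤ) = M - 1 := by omega
          omega
        · unfold par
          rw [hpar j hj]
          have h1 := key z j
          have h2 := abs_le.1 (hz j)
          have h3 := hi.2 j hj
          unfold mid at h3
          apply ediv_same <;> omega
      apply hne
      rw [hoo, h1, hxe]
    -- move `z'` in direction `i`
    refine ⟨fun j => if j = i then (if x i < z i then z' i - 6 else z' i + 6) else z' j, ?_, ?_⟩
    · intro j
      by_cases hj : j = i
      · subst hj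
        simp only [if_true]
        split_ifs <;> simp
      · simp [hj]
    · rw [← hxe]
      congr 1
      funext j
      unfold par
      by_cases hj : j = i
      · subst hj
        simp only [if_true]
        have k1 := key z j
        have k2 := abs_le.1 (hz j)
        have k3 := abs_le.1 (hx j)
        have e1 := Int.emod_add_mul_ediv (z j) M
        have e3 := Int.emod_add_mul_ediv (x j) M
        have k5 := key x j
        have k7 := abs_le.1 (ediv_adj (M := M) (by omega) (a := x j) (b := z j)
          (by rw [abs_lt]; constructor <;> omega))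
        have c2 : x j / (M : ℤ) = z j / M - 1 ∨ x j / (M : ℤ) = z j / M + 1 := by omega
        unfold dep at hu
        rcases c2 with c | c
        · have hlt : x j < z j := by
            have : (M : ℤ) * (x j / M) = M * (z j / M) - M := by rw [c]; ring
            omega
          rw [if_pos hlt, c]
          have hm : (M : ℤ) * (x j / M) = M * (z j / M) - M := by rw [c]; ring
          have hz' : z' j - 6 = (z' j - 6 - M * (z j / M) + M) + M * (z j / M - 1) := by ring
          rw [hz', Int.add_mul_ediv_left _ _ hM0.ne',
            Int.ediv_eq_zero_of_lt (by omega) (by omega)]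
          omega
        · have hlt : ¬ x j < z j := by
            have : (M : ℤ) * (x j / M) = M * (z j / M) + M := by rw [c]; ring
            omega
          rw [if_neg hlt, c]
          have hm : (M : ℤ) * (x j / M) = M * (z j / M) + M := by rw [c]; ring
          have hz' : z' j + 6 = (z' j + 6 - M * (z j / M) - M) + M * (z j / M + 1) := by ring
          rw [hz', Int.add_mul_ediv_left _ _ hM0.ne',
            Int.ediv_eq_zero_of_lt (by omega) (by omega)]
          omega
      · simp only [if_neg hj]
        have := congrFun hpar' j
        unfold par at this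
        rw [this, hpar j hj]
  -- new staples have depth at least two
  have hC : ∀ z z' : Fin 3 → ℤ, (∀ j, |z j - z' j| ≤ 1) → patAt M (fun j => z j % M) = 1 →
      par M z = par M z' := by
    intro z z' hz hp
    rcases patAt_cases M (fun j => z j % M) with h0 | ⟨i, hi, hpi⟩
    · rw [h0] at hp; norm_num at hp
    rw [hpi] at hp
    have hu := (pat_one (term_one hp)).2.1
    by_contra hcon
    have := hface z z' hz i hi hcon
    omega
  -- the comparison for the mixed case
  have hmix : ∀ z z' : Fin 3 → ℤ, (∀ j, |z j - z' j| ≤ 1) → Even (L (par M z)) →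
      ¬ Even (L (par M z')) → |L (par M z) - L (par M z')| ≤ 1 →
      |step M L z - step M L z'| ≤ 1 := by
    intro z z' hz he ho hd
    have hnb : nb M L z = L (par M z) := by unfold nb; rw [if_pos he]
    have hne : L (par M z) ≠ L (par M z') := by
      intro h; rw [h] at he; exact ho he
    have hnear : near M L z' (L (par M z)) :=
      ⟨z, fun j => (hz j).trans (by norm_num), rfl⟩
    have hnb' : nb M L z' = L (par M z) := nb_eq_of_near hM hL ho hnear hne
    have hp : patAt M (fun j => z' j % M) ≠ 1 := by
      intro h
      have := hC z' z (fun j => by rw [abs_sub_comm]; exact hz j) h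
      apply hne; rw [this]
    have hp' := patAt_vals M (fun j => z' j % M)
    unfold step
    rw [hnb, hnb']
    generalize patAt M (fun j => z' j % (M : ℤ)) = P' at hp hp'
    rw [abs_le] at hd ⊢
    rcases hp' with rfl | rfl | rfl
    · constructor <;> linarith [hd.1, hd.2]
    · constructor <;> linarith [hd.1, hd.2]
    · exact absurd rfl hp
  intro z z' hz
  have hz' : ∀ j, |z' j - z j| ≤ 1 := fun j => by rw [abs_sub_comm]; exact hz j
  have hpp : |L (par M z) - L (par M z')| ≤ 1 := by
    apply hL
    intro j
    apply ediv_adj (by omega)
    have := hz j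
    omega
  by_cases he : Even (L (par M z))
  · by_cases he' : Even (L (par M z'))
    · have hnb : nb M L z = L (par M z) := by unfold nb; rw [if_pos he]
      have hnb' : nb M L z' = L (par M z') := by unfold nb; rw [if_pos he']
      have heq : L (par M z) = L (par M z') := by
        rw [Int.even_iff] at he he'
        rw [abs_le] at hpp
        omega
      unfold step
      rw [hnb, hnb', heq]
      simp
    · exact hmix z z' hz he he' hpp
  · by_cases he' : Even (L (par M z'))
    · rw [abs_sub_comm]
      exact hmix z' z hz' he' he (by rw [abs_sub_comm]; exact hpp)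
    · -- both odd
      have heq : L (par M z) = L (par M z') := by
        rw [Int.even_iff] at he he'
        rw [abs_le] at hpp
        omega
      have hnn : |nb M L z - nb M L z'| ≤ 1 := near_near hM hL hz (near_nb z) (near_nb z')
      have hv := patAt_vals M (fun j => z j % M)
      have hv' := patAt_vals M (fun j => z' j % M)
      by_cases h1 : nb M L z = L (par M z)
      · by_cases h2 : nb M L z' = L (par M z')
        · unfold step
          rw [h1, h2, heq]; simp
        · -- `z'` near a gap, `z` not
          have hp : patAt M (fun j => z' j % M) ≠ -1 := by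
            intro h
            have h3 := hB z' z hz' he' heq.symm h2 h
            have h4 := nb_eq_of_near hM hL he h3 (by rw [heq]; exact h2)
            apply h2
            rw [← h4, h1, heq]
          have h5 : nb M L z' = L (par M z') - 1 ∨ nb M L z' = L (par M z') + 1 := by
            rw [h1, heq, abs_le] at hnn; omega
          unfold step
          rw [h1, heq]
          generalize patAt M (fun j => z j % (M : ℤ)) = P at hv
          generalize patAt M (fun j => z' j % (M : ℤ)) = P' at hv' hp
          rcases h5 with h5 | h5 <;> rw [h5, abs_le] <;>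
            rcases hv' with rfl | rfl | rfl <;> first | exact absurd rfl hp | (constructor <;> linarith)
      · by_cases h2 : nb M L z' = L (par M z')
        · have hp : patAt M (fun j => z j % M) ≠ -1 := by
            intro h
            have h3 := hB z z' hz he heq h1 h
            have h4 := nb_eq_of_near hM hL he' h3 (by rw [← heq]; exact h1)
            apply h1
            rw [← h4, h2, heq]
          have h5 : nb M L z = L (par M z) - 1 ∨ nb M L z = L (par M z) + 1 := by
            rw [h2, ← heq, abs_le] at hnn; omega
          unfold step
          rw [h2, ← heq]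
          generalize patAt M (fun j => z j % (M : ℤ)) = P at hv hp
          generalize patAt M (fun j => z' j % (M : ℤ)) = P' at hv'
          rcases h5 with h5 | h5 <;> rw [h5, abs_le] <;>
            rcases hv with rfl | rfl | rfl <;> first | exact absurd rfl hp | (constructor <;> linarith)
        · -- both near, the same gap
          have hc1 : nb M L z = L (par M z) - 1 ∨ nb M L z = L (par M z) + 1 := by
            rcases nb_cases M L z with h | ⟨_, _, h⟩ | ⟨_, _, h⟩
            · exact absurd h h1
            · left; exact h
            · right; exact h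
          have hc2 : nb M L z' = L (par M z') - 1 ∨ nb M L z' = L (par M z') + 1 := by
            rcases nb_cases M L z' with h | ⟨_, _, h⟩ | ⟨_, _, h⟩
            · exact absurd h h2
            · left; exact h
            · right; exact h
          have hee : nb M L z = nb M L z' := by
            rw [abs_le] at hnn; omega
          -- the patterns differ by at most one
          have hpd : ¬ (patAt M (fun j => z j % M) = -1 ∧ patAt M (fun j => z' j % M) = 1) := by
            rintro ⟨a, b⟩
            have hpar := hC z' z hz' b
            exact no_touch (hmod z z' hz hpar.symm) a b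
          have hpd' : ¬ (patAt M (fun j => z j % M) = 1 ∧ patAt M (fun j => z' j % M) = -1) := by
            rintro ⟨a, b⟩
            have hpar := hC z z' hz a
            exact no_touch (hmod z' z hz' hpar.symm) b a
          unfold step
          rw [hee, heq]
          rw [heq, hee] at hc1
          generalize patAt M (fun j => z j % (M : ℤ)) = P at hv hpd hpd'
          generalize patAt M (fun j => z' j % (M : ℤ)) = P' at hv' hpd hpd'
          rcases hc2 with h5 | h5 <;> rw [h5, abs_le] <;>
            rcases hv with rfl | rfl | rfl <;> rcases hv' with rfl | rfl | rfl <;>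
            first
              | exact absurd ⟨rfl, rfl⟩ hpd
              | exact absurd ⟨rfl, rfl⟩ hpd'
              | (constructor <;> linarith)

end

theorem lip : LipStmt := by
  intro m
  induction m with
  | zero =>
    intro z z' h
    show |min 2 (max |z 0| (max |z 1| |z 2|)) - min 2 (max |z' 0| (max |z' 1| |z' 2|))| ≤ 1
    have h0 := abs_le.1 (h 0)
    have h1 := abs_le.1 (h 1)
    have h2 := abs_le.1 (h 2)
    rw [abs_le]
    have e0 := abs_cases (z 0)
    have e1 := abs_cases (z 1)
    have e2 := abs_cases (z 2)
    have e0' := abs_cases (z' 0)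
    have e1' := abs_cases (z' 1)
    have e2' := abs_cases (z' 2)
    omega
  | succ m ih =>
    exact step_lip (by have := MM_ge m; omega) ih

end Pool.Agent.Helper83_CNED.H83
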