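import Pool.Agent.Helper83_CNED.Asm
import Pool.Agent.Helper83_CNED.Child
import Pool.Agent.Helper83_CNED.Lip
import Pool.Agent.Helper12_CNED.Poin
import Pool.Agent.Helper12_CNED.Walk
import Pool.Agent.Helper1_CNED.Aclug
import Pool.Agent.Helper1_CNED.Glob
import Pool.Agent.Helper26_CNED.Small
import Pool.Agent.Helper3_CNED.Link
import Pool.Agent.Helper3_CNED.Sum
import Pool.Agent.Helper47_CNED.Loop
import Pool.Agent.Helper4_CNED.Good
import Pool.Agent.Helper4_CNED.Labf
import Pool.Agent.Helper52_CNED.ModPos
import Pool.Agent.Helper52_CNED.NotCned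
import Pool.Agent.Helper59_CNED.Gad
import Pool.Agent.Helper59_CNED.Lam
import Pool.Agent.Helper72_CNED.AclOf
import Pool.Agent.Helper72_CNED.Area
import Pool.Agent.Helper72_CNED.Frame
import Pool.Agent.Helper73_CNED.GadF
import Pool.Agent.Helper73_CNED.Geo

/-!
CNED: final assembly.
-/

noncomputable section

namespace Pool.Agent.Helper83_CNED

theorem labF' : LabFStmt := H4.labF H83.lip

theorem geo' : GeoStmt := H73.geo labF' H26.boxU H83.child

theorem gad' : GadStmt := H59.gad H12.poin H47.loopA H47.loopB H3.link

theorem gadF' : GadFStmt := H73.gadF gad' geo' H72.frame_stmt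

theorem sum' : SumStmt := H3.sum gadF' (H26.range H83.child)

theorem walk' : WalkStmt := H12.walk labF' H26.boxU

theorem even' : EvenStmt := H26.even H83.child

theorem null' : NullStmt := H26.null H4.good H83.child

theorem glob' : GlobStmt := H1.glob sum' walk' H4.good null' even'

/-- The main theorem. -/
theorem main : MainStmt :=
  main_of even' (H59.lam H83.lip H83.child) null' (H52.notCned H52.modPos) glob' H1.aclug
    H72.area H72.aclof

end Pool.Agent.Helper83_CNED
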