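import Pool.Agent.Helper83_CNED.Basic

/-!
Statements of the modules of squad CNED.
-/

open MeasureTheory Set Topology Filter

open scoped ENNReal

noncomputable section

namespace Pool.Agent.Helper83_CNED

/-! ## Part A: the labels -/

/-- LIP: adjacent cubes (also at edges and corners) have labels that differ by at most one. -/
def LipStmt : Prop :=
  ∀ (m : ℕ) (z z' : Fin 3 → ℤ), (∀ j, |z j - z' j| ≤ 1) → |lab m z - lab m z'| ≤ 1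

/-- CHILD: labels of children. -/
def ChildStmt : Prop :=
  (∀ (m : ℕ) (z : Fin 3 → ℤ), Even (lab m (par (MM m) z)) →
    lab (m + 1) z = 2 * lab m (par (MM m) z)) ∧
  (∀ (m : ℕ) (z : Fin 3 → ℤ), |lab (m + 1) z - 2 * lab m (par (MM m) z)| ≤ 2) ∧
  (∀ (m : ℕ) (z : Fin 3 → ℤ), (∀ j, mid (MM m) (z j % MM m)) →
    lab (m + 1) z = 2 * lab m (par (MM m) z))

/-- RANGE: wall cubes lie in the box `[-1, 2]^3`. -/
def RangeStmt : Prop :=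
  ∀ (m : ℕ) (z : Fin 3 → ℤ), Odd (lab m z) → ∀ j, -(RR m : ℤ) ≤ z j ∧ z j < 2 * RR m

/-- LABF: labels of the children of a wall cube `z` whose coordinates different from `i` are in
the middle part. -/
def LabFStmt : Prop :=
  ∀ (m : ℕ) (z : Fin 3 → ℤ) (i : Fin 3) (c : Fin 3 → ℤ), Odd (lab m z) → par (MM m) c = z →
    (∀ j, j ≠ i → mid (MM m) (c j % MM m)) →
    (∀ (s : Bool) (u : ℤ), Even (lab m (z + sg s • ue i)) →
      u = (if s then MM m - 1 - c i % MM m else c i % MM m) → u < 6 →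
      lab (m + 1) c = lab m z + lab m (z + sg s • ue i) +
        pat u (c (i + 1) % MM m % 7) (c (i + 2) % MM m % 7) *
          (lab m z - lab m (z + sg s • ue i))) ∧
    ((Even (lab m (z + sg false • ue i)) → 6 ≤ c i % MM m) →
      (Even (lab m (z + sg true • ue i)) → c i % MM m < MM m - 6) →
      lab (m + 1) c = 2 * lab m z)

/-- EVEN: points of `UU` have even labels in all late generations; `UU` contains everything
outside of `[-1, 2]^3`. -/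
def EvenStmt : Prop :=
  (∀ x ∈ UU, ∃ m₀ : ℕ, ∀ m ≥ m₀, Even (lab m (idx m x))) ∧
  (∀ x : Eu 3, (∃ j, x j < -1 ∨ 2 < x j) → x ∈ UU)

/-- LAM: the limit of the labels. -/
def LamStmt : Prop :=
  ∃ L : Eu 3 → ℝ, Continuous L ∧ (∀ x ∈ UU, ∃ (k : ℤ) (m : ℕ), L x = k / 2 ^ m) ∧
    (∀ x : Eu 3, (∀ j, 0 < x j ∧ x j < 1) → L x = 0) ∧ (∀ x : Eu 3, (∃ j, 2 < x j) → L x = 2)

/-- BOXU: a box of gap cubes is contained in `UU`. -/
def BoxUStmt : Prop :=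
  ∀ (m : ℕ) (a b : Fin 3 → ℤ),
    (∀ z : Fin 3 → ℤ, (∀ j, a j ≤ z j ∧ z j < b j) → Even (lab m z)) →
    ob (fun j => (a j : ℝ) / RR m) (fun j => (b j : ℝ) / RR m) ⊆ UU

/-- the corner of the cell with index `a` in the face of the cube `z` orthogonal to the axis `i`
(upper face if `s`) -/
def corner (m : ℕ) (z : Fin 3 → ℤ) (i : Fin 3) (s : Bool) (a : Fin 3 → ℤ) : Fin 3 → ℝ :=
  fun j => if j = i then tf m s (z i) else (((MM m : ℤ) * z j + 7 * a j : ℤ) : ℝ) / RR (m + 1)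

/-- GEO: the eight boxes of the gadget lie in `UU`. -/
def GeoStmt : Prop :=
  ∀ (m : ℕ) (z : Fin 3 → ℤ) (i : Fin 3) (s : Bool), Odd (lab m z) →
    Even (lab m (z + sg s • ue i)) → ∀ a : Fin 3 → ℤ, (∀ j, j ≠ i → 3 ≤ a j ∧ a j < KK m - 3) →
    ∀ k : Fin 8, ∀ x ∈ sb k,
      frame (1 / RR (m + 1)) (-(sg s : ℝ)) i (corner m z i s a) x ∈ UU

/-! ## Part B: measure zero -/

/-- GOOD: Borel-Cantelli. -/
def GoodStmt : Prop := ∀ᵐ p : Eu 3, ∀ j, ∀ᶠ m in atTop, GoodC m (p j)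

/-- NULL -/
def NullStmt : Prop := volume EE = 0

/-! ## Part C: the set is not CNED -/

/-- a square in the middle of the unit cube -/
def F₁ : Set (Eu 3) := {x | x 0 = 1 / 2 ∧ ∀ j, j ≠ 0 → x j ∈ Icc (1 / 4 : ℝ) (3 / 4)}

/-- a square outside -/
def F₂ : Set (Eu 3) := {x | x 0 = 5 / 2 ∧ ∀ j, j ≠ 0 → x j ∈ Icc (1 / 4 : ℝ) (3 / 4)}

/-- MODPOS: the modulus of the curves joining the two squares is positive. -/
def ModPosStmt : Prop := modulus (joining F₁ F₂) ≠ 0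

/-- NOTCNED: the topological criterion. -/
def NotCnedStmt : Prop :=
  ∀ E : Set (Eu 3), (∃ L : Eu 3 → ℝ, Continuous L ∧
    (∀ x, x ∉ E → ∃ (k : ℤ) (m : ℕ), L x = k / 2 ^ m) ∧
    (∀ x ∈ F₁, L x = 0) ∧ (∀ x ∈ F₂, L x = 2)) → ¬ CNED E

/-! ## Part D: analysis in one gadget -/

/-- the rectangle `∂([u₁, u₂] × [v₁, v₂])` in the plane `x_2 = w` -/
def rectA (u₁ u₂ v₁ v₂ w : ℝ) : Set (Eu 3) :=
  {x | x 2 = w ∧ (u₁ ≤ x 0 ∧ x 0 ≤ u₂) ∧ (v₁ ≤ x 1 ∧ x 1 ≤ v₂) ∧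
    (x 0 = u₁ ∨ x 0 = u₂ ∨ x 1 = v₁ ∨ x 1 = v₂)}

/-- the rectangle `∂([u₁, u₂] × [w₁, w₂])` in the plane `x_1 = v` -/
def rectB (u₁ u₂ v w₁ w₂ : ℝ) : Set (Eu 3) :=
  {x | x 1 = v ∧ (u₁ ≤ x 0 ∧ x 0 ≤ u₂) ∧ (w₁ ≤ x 2 ∧ x 2 ≤ w₂) ∧
    (x 0 = u₁ ∨ x 0 = u₂ ∨ x 2 = w₁ ∨ x 2 = w₂)}

/-- LINK: the images of two linked rectangles under a homeomorphism of the space are linked, so
their distance is at most the diameter of one of them. -/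
def LinkStmt : Prop :=
  ∀ (h : Eu 3 ≃ₜ Eu 3) (u₁ u₂ u₃ u₄ v₁ v₂ v w₁ w₂ w : ℝ), u₁ < u₃ → u₃ < u₂ → u₂ < u₄ →
    v₁ < v → v < v₂ → w₁ < w → w < w₂ →
    ∃ x ∈ rectA u₁ u₂ v₁ v₂ w, ∃ y ∈ rectB u₃ u₄ v w₁ w₂,
      edist (h x) (h y) ≤ Metric.ediam (h '' rectA u₁ u₂ v₁ v₂ w)

/-- POIN: a Poincaré inequality on boxes. -/
def PoinStmt : Prop :=
  ∀ (h : Eu 3 → Eu 3) (G : Eu 3 → ℝ≥0∞), Continuous h → Measurable G → ∀ a b : Fin 3 → ℝ,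
    (∀ j, a j < b j) → (∀ j, UG h G j a b) →
    ∫⁻ x in ob a b, ∫⁻ y in ob a b, edist (h x) (h y) ≤
      (∑ j, ENNReal.ofReal (b j - a j)) * volume (ob a b) * ∫⁻ x in ob a b, G x

/-- the unit cube -/
def Q : Set (Eu 3) := ob (fun _ => 0) (fun _ => 1)

/-- the translates of the loop in the old gap -/
def loopA (τ : Eu 3) : Set (Eu 3) := rectA (-1 + τ 0) (4 + τ 0) (1 + τ 1) (5 + τ 1) (3 + τ 2)

/-- the translates of the loop in the new gap -/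
def loopB (τ : Eu 3) : Set (Eu 3) := rectB (2 + τ 0) (6 + τ 0) (3 + τ 1) (1 + τ 2) (5 + τ 2)

/-- the eight boxes together -/
def WW : Set (Eu 3) := ⋃ k, sb k

/-- LOOPA: the average diameter of the images of the loops in the old gap. -/
def LoopAStmt : Prop :=
  ∀ (h : Eu 3 → Eu 3) (G : Eu 3 → ℝ≥0∞), Continuous h → Measurable G →
    (∀ k j, UG h G j (fun l => sbL k l) (fun l => sbU k l)) →
    ∃ ℓ : Eu 3 → ℝ≥0∞, Measurable ℓ ∧ (∀ᵐ τ : Eu 3, τ ∈ Q → Metric.ediam (h '' loopA τ) ≤ ℓ τ) ∧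
      ∫⁻ τ in Q, ℓ τ ≤ 20 * ∫⁻ x in WW, G x

/-- LOOPB: the average diameter of the images of the loops in the new gap. -/
def LoopBStmt : Prop :=
  ∀ (h : Eu 3 → Eu 3) (G : Eu 3 → ℝ≥0∞), Continuous h → Measurable G →
    (∀ k j, UG h G j (fun l => sbL k l) (fun l => sbU k l)) →
    ∃ ℓ : Eu 3 → ℝ≥0∞, Measurable ℓ ∧ (∀ᵐ τ : Eu 3, τ ∈ Q → Metric.ediam (h '' loopB τ) ≤ ℓ τ) ∧
      ∫⁻ τ in Q, ℓ τ ≤ 20 * ∫⁻ x in WW, G x

/-- GAD: the gadget inequality in standard coordinates. -/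
def GadStmt : Prop :=
  ∃ C : ℝ≥0∞, C ≠ ⊤ ∧ ∀ (h : Eu 3 ≃ₜ Eu 3) (G : Eu 3 → ℝ≥0∞), Measurable G →
    (∀ k j, UG h G j (fun l => sbL k l) (fun l => sbU k l)) → ∀ α β : ℝ, α < β →
    ∫⁻ x in ob ![α, 0, 0] ![β, 7, 7], edist (h (line x 0 0)) (h (line x 0 6)) ≤
      C * ENNReal.ofReal (β - α) * ∫⁻ x in WW, G x

/-! ## Part E: frames and cells -/

/-- FRAME: frames are homeomorphisms, transport of the upper gradient property, change of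
variables. -/
def FrameStmt : Prop :=
  ∀ (ε σ : ℝ) (i : Fin 3) (c : Fin 3 → ℝ), 0 < ε → (σ = 1 ∨ σ = -1) →
    (∃ φ : Eu 3 ≃ₜ Eu 3, ∀ x, φ x = frame ε σ i c x) ∧
    (∀ (F : Eu 3 → ℝ≥0∞) (S : Set (Eu 3)), Measurable F → MeasurableSet S →
      ∫⁻ p in frame ε σ i c '' S, F p =
        ENNReal.ofReal (ε ^ 3) * ∫⁻ x in S, F (frame ε σ i c x)) ∧
    (∀ (f : Eu 3 → Eu 3) (g : Eu 3 → ℝ≥0∞) (V : Set (Eu 3)), Measurable g →
      (∀ (i' : Fin 3) (a' b' : Fin 3 → ℝ), ob a' b' ⊆ V → UG f g i' a' b') →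
      ∀ a b : Fin 3 → ℝ, (∀ x ∈ ob a b, frame ε σ i c x ∈ V) →
      ∀ j, UG (fun x => f (frame ε σ i c x))
        (fun x => ENNReal.ofReal ε * g (frame ε σ i c x)) j a b)

/-- the column of a cell -/
def cellCol (m : ℕ) (z : Fin 3 → ℤ) (i : Fin 3) (s : Bool) (a : Fin 3 → ℤ) : Set (Eu 3) :=
  {x | |x i - tf m s (z i)| < 13 / RR (m + 1) ∧
    ∀ j, j ≠ i → corner m z i s a j < x j ∧ x j < corner m z i s a j + 7 / RR (m + 1)}

/-- the hypothesis on `f` and `g` -/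
def Hyp (f : Eu 3 → Eu 3) (g : Eu 3 → ℝ≥0∞) : Prop :=
  Measurable g ∧ ∀ (i : Fin 3) (a b : Fin 3 → ℝ), ob a b ⊆ UU → UG f g i a b

/-- GADF: the gadget inequality for a cell. -/
def GadFStmt : Prop :=
  ∃ C : ℝ≥0∞, C ≠ ⊤ ∧ ∀ (f : Eu 3 ≃ₜ Eu 3) (g : Eu 3 → ℝ≥0∞), Hyp f g →
    ∀ (m : ℕ) (z : Fin 3 → ℤ) (i : Fin 3) (s : Bool), Odd (lab m z) →
    Even (lab m (z + sg s • ue i)) → ∀ a : Fin 3 → ℤ, (∀ j, j ≠ i → 3 ≤ a j ∧ a j < KK m - 3) →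
    ∫⁻ p in {p : Eu 3 | (0 < p i ∧ p i < 1) ∧
        ∀ j, j ≠ i → corner m z i s a j < p j ∧ p j < corner m z i s a j + 7 / RR (m + 1)},
        edist (f (line p i (tf m s (z i)))) (f (line p i (tg m s (z i)))) ≤
      C * ∫⁻ x in cellCol m z i s a ∩ UU, g x

/-- SUM: the sum over all cells. -/
def SumStmt : Prop :=
  ∃ C : ℝ≥0∞, C ≠ ⊤ ∧ ∀ (f : Eu 3 ≃ₜ Eu 3) (g : Eu 3 → ℝ≥0∞), Hyp f g →
    ∀ (m : ℕ) (i : Fin 3),
    ∫⁻ p in {p : Eu 3 | 0 < p i ∧ p i < 1}, err f m i p ≤ C * ∫⁻ x in NN m i ∩ UU, g x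

/-! ## Part F: lines -/

/-- the upper gradient property on the line through `p` -/
def LineUG (f : Eu 3 → Eu 3) (g : Eu 3 → ℝ≥0∞) (i : Fin 3) (p : Eu 3) : Prop :=
  ∀ (m : ℕ) (a b : Fin 3 → ℤ),
    ob (fun j => (a j : ℝ) / RR m) (fun j => (b j : ℝ) / RR m) ⊆ UU →
    (∀ j, j ≠ i → (a j : ℝ) / RR m < p j ∧ p j < (b j : ℝ) / RR m) →
    ∀ s t : ℝ, (a i : ℝ) / RR m < s → s ≤ t → t < (b i : ℝ) / RR m →
      edist (f (line p i s)) (f (line p i t)) ≤ ∫⁻ r in Ioo s t, g (line p i r)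

/-- WALK: the walk along a line. -/
def WalkStmt : Prop :=
  ∀ (f : Eu 3 → Eu 3) (g : Eu 3 → ℝ≥0∞), Continuous f → Measurable g → ∀ (i : Fin 3) (p : Eu 3)
    (m : ℕ), LineUG f g i p → (∀ j, j ≠ i → GoodC m (p j)) → ∀ s t : ℝ, s ≤ t →
    Even (lab m (idx m (line p i s))) → Even (lab m (idx m (line p i t))) →
    edist (f (line p i s)) (f (line p i t)) ≤
      (∫⁻ r in Ioo s t, UU.indicator g (line p i r)) + err f m i p

/-- GLOB: `g` is an upper gradient on almost every line. -/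
def GlobStmt : Prop :=
  ∀ (f : Eu 3 ≃ₜ Eu 3) (g : Eu 3 → ℝ≥0∞), Hyp f g →
    (∀ r : ℝ, ∫⁻ x in Metric.closedBall 0 r ∩ UU, g x < ⊤) → ∀ i : Fin 3, ∀ᵐ p : Eu 3,
    ∀ s t : ℝ, s ≤ t →
      edist (f (line p i s)) (f (line p i t)) ≤ ∫⁻ r in Ioo s t, UU.indicator g (line p i r)

/-! ## Part G: quasiconformal maps -/

/-- ACLUG: the norm of the derivative is an upper gradient on almost all segments. -/
def AclUgStmt : Prop :=
  ∀ (K : ℝ) (f : Eu 3 → Eu 3) (U : Set (Eu 3)), IsOpen U → IsQCOn K U f →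
    ∀ (i : Fin 3) (a b : Fin 3 → ℝ), ob a b ⊆ U → UG f (fun x => ‖fderiv ℝ f x‖ₑ) i a b

/-- AREA: the derivative is locally integrable. -/
def AreaStmt : Prop :=
  ∀ (K : ℝ) (f : Eu 3 ≃ₜ Eu 3) (U : Set (Eu 3)), IsOpen U → IsQCOn K U f →
    ∀ r : ℝ, ∫⁻ x in Metric.closedBall 0 r ∩ U, ‖fderiv ℝ f x‖ₑ < ⊤

/-- ACLOF: from the upper gradient property on almost every line to ACL. -/
def AclOfStmt : Prop :=
  ∀ (f : Eu 3 → Eu 3) (G : Eu 3 → ℝ≥0∞), Measurable G →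
    (∀ r : ℝ, ∫⁻ x in Metric.closedBall 0 r, G x < ⊤) →
    (∀ i : Fin 3, ∀ᵐ p : Eu 3, ∀ s t : ℝ, s ≤ t →
      edist (f (line p i s)) (f (line p i t)) ≤ ∫⁻ r in Ioo s t, G (line p i r)) →
    ACL univ f

end Pool.Agent.Helper83_CNED
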